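import Pool.Agent.Lib.MP_fa837f_gt.P2.Iface

/-!
Project P2, row MO (helper24): mollification.
-/

set_option autoImplicit false
set_option linter.unusedSectionVars false

open MeasureTheory Matrix Set Filter Topology

namespace Pool.Agent.Lib.MP_fa837f_gt.P2.H24

variable {ι : Type} [Fintype ι] [DecidableEq ι]

/-- Substitution. -/
theorem moll_sub (g ψ : (ι → ℝ) → ℝ) {ε : ℝ} (hε : 0 < ε) (x : ι → ℝ) :
    ∫ w, g (x - ε • w) * ψ w =
      |(ε ^ Module.finrank ℝ (ι → ℝ))⁻¹| * ∫ t, g t * ψ (ε⁻¹ • (x - t)) := by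
  have h1 := Measure.integral_comp_smul (volume : Measure (ι → ℝ))
    (fun z => g (x - z) * ψ (ε⁻¹ • z)) ε
  have h2 : (fun w : ι → ℝ => g (x - ε • w) * ψ (ε⁻¹ • ε • w)) =
      fun w => g (x - ε • w) * ψ w := by
    funext w
    rw [inv_smul_smul₀ hε.ne']
  rw [h2] at h1
  rw [h1, smul_eq_mul]
  congr 1
  have h3 := integral_sub_left_eq_self (fun t : ι → ℝ => g t * ψ (ε⁻¹ • (x - t)))
    (volume : Measure (ι → ℝ)) x
  rw [← h3]
  congr 1
  funext z
  rw [sub_sub_cancel]

theorem l2c_memLp {g : (ι → ℝ) → ℝ} (hg : L2c g) : MemLp g 2 volume := by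
  rw [memLp_two_iff_integrable_sq hg.meas]
  exact hg.sq

theorem mol_hcs {φ : (ι → ℝ) → ℝ} (hφ : Mol φ) : HasCompactSupport φ := by
  apply HasCompactSupport.intro (isCompact_closedBall (0 : ι → ℝ) 1)
  intro x hx
  rw [mem_closedBall_zero_iff, not_le] at hx
  exact hφ.supp x hx

/-- First part. -/
theorem mo1 {φ g : (ι → ℝ) → ℝ} (hφ : Mol φ) (hg : L2c g) {ε : ℝ} (hε : 0 < ε) :
    Tst (moll φ g ε) ∧ ∀ p x, pd p (moll φ g ε) x = mollD φ g ε p x := by
  set c : ℝ := |(ε ^ Module.finrank ℝ (ι → ℝ))⁻¹| with hc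
  set φe : (ι → ℝ) → ℝ := fun z => φ (ε⁻¹ • z) with hφe
  have hsm : ContDiff ℝ (⊤ : ℕ∞) φe := hφ.smooth.comp (contDiff_const_smul _)
  have hcs : HasCompactSupport φe := by
    apply HasCompactSupport.intro (isCompact_closedBall (0 : ι → ℝ) ε)
    intro x hx
    rw [mem_closedBall_zero_iff, not_le] at hx
    apply hφ.supp
    rw [norm_smul, norm_inv, Real.norm_of_nonneg hε.le, inv_mul_eq_div, one_lt_div hε]
    exact hx
  have hgl : LocallyIntegrable g volume := (l2c_memLp hg).locallyIntegrable (by norm_num)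
  have hgc : HasCompactSupport g := by
    obtain ⟨T, hT⟩ := hg.supp
    apply HasCompactSupport.intro (isCompact_closedBall (0 : ι → ℝ) T)
    intro x hx
    rw [mem_closedBall_zero_iff, not_le] at hx
    exact hT x hx
  have hconv : moll φ g ε = fun x => c * (convolution g φe (ContinuousLinearMap.mul ℝ ℝ) volume) x := by
    funext x
    unfold moll
    rw [moll_sub g φ hε x]
    rfl
  refine ⟨⟨?_, ?_⟩, ?_⟩
  · rw [hconv]
    exact contDiff_const.mul (hcs.contDiff_convolution_right _ hgl hsm)
  · rw [hconv]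
    exact (HasCompactSupport.convolution (ContinuousLinearMap.mul ℝ ℝ) hgc hcs).mul_left
  · intro p x
    have h1 := (hcs.hasFDerivAt_convolution_right (ContinuousLinearMap.mul ℝ ℝ) hgl
      (hsm.of_le (by norm_cast)) x).const_mul c
    unfold pd
    rw [hconv, h1.fderiv]
    rw [_root_.smul_apply, convolution_precompR_apply _ hgl (hcs.fderiv ℝ)
      (hsm.continuous_fderiv (by simp)) x (Pi.single p 1)]
    unfold mollD
    rw [moll_sub g (pd p φ) hε x, ← hc, smul_eq_mul, ← mul_assoc, mul_comm ε⁻¹ c, mul_assoc]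
    congr 1
    rw [convolution_def, ← integral_const_mul]
    congr 1
    funext t
    have h2 : fderiv ℝ φe (x - t) (Pi.single p 1) = ε⁻¹ * pd p φ (ε⁻¹ • (x - t)) := by
      rw [hφe]
      have h3 : HasFDerivAt (fun z : ι → ℝ => ε⁻¹ • z)
          (ε⁻¹ • ContinuousLinearMap.id ℝ (ι → ℝ)) (x - t) :=
        (hasFDerivAt_id (x - t)).const_smul ε⁻¹
      have h4 : HasFDerivAt φ (fderiv ℝ φ (ε⁻¹ • (x - t))) (ε⁻¹ • (x - t)) :=
        (hφ.smooth.differentiable (by simp) _).hasFDerivAt
      have h5 := h4.comp (x - t) h3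
      have h6 : (fun z : ι → ℝ => φ (ε⁻¹ • z)) = φ ∘ fun z : ι → ℝ => ε⁻¹ • z := rfl
      rw [h6, h5.fderiv]
      unfold pd
      simp
    rw [h2]
    simp only [ContinuousLinearMap.mul_apply']
    ring

/-- Second part, for measurable functions. -/
theorem mo2 (hTr : TrStatement) {φ g : (ι → ℝ) → ℝ} (hφ : Mol φ) (hgm : Measurable g)
    (hg : Integrable fun x => g x ^ 2) :
    Tendsto (fun ε : ℝ => ∫ x, (moll φ g ε x - g x) ^ 2) (𝓝[>] 0) (𝓝 0) := by
  have hφc : Continuous φ := hφ.smooth.continuous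
  have hφs : HasCompactSupport φ := mol_hcs hφ
  have hφi : Integrable φ := hφc.integrable_of_hasCompactSupport hφs
  obtain ⟨B, hB⟩ : ∃ B : ℝ, ∀ w, ‖φ w‖ ≤ B := hφc.bounded_above_of_compact_support hφs
  have htr := hTr ι g hgm.aestronglyMeasurable hg
  set h : (ι → ℝ) → ℝ := fun v => ∫ x, (g (x - v) - g x) ^ 2 with hh
  have hh0 : ∀ v, 0 ≤ h v := fun v => integral_nonneg fun x => sq_nonneg _
  have hgsub : ∀ v : ι → ℝ, Integrable fun x => g (x - v) ^ 2 := fun v =>
    hg.comp_sub_right v
  have hdiff : ∀ v : ι → ℝ, Integrable fun x => (g (x - v) - g x) ^ 2 := by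
    intro v
    have h1 : Integrable fun x => 2 * (g (x - v) ^ 2 + g x ^ 2) := ((hgsub v).add hg).const_mul 2
    have h0 : Measurable fun x => (g (x - v) - g x) ^ 2 :=
      ((hgm.comp (measurable_id.sub_const v)).sub hgm).pow_const 2
    apply h1.mono' h0.aestronglyMeasurable
    filter_upwards with x
    simp only [Real.norm_eq_abs]
    rw [abs_of_nonneg (sq_nonneg _)]
    nlinarith [sq_nonneg (g (x - v) + g x)]
  have hhb : ∀ v, h v ≤ 4 * ∫ x, g x ^ 2 := by
    intro v
    have h1 : h v ≤ ∫ x, 2 * (g (x - v) ^ 2 + g x ^ 2) := by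
      have h3 : Integrable fun x => 2 * (g (x - v) ^ 2 + g x ^ 2) :=
        ((hgsub v).add hg).const_mul 2
      apply integral_mono (hdiff v) h3
      intro x
      simp only
      nlinarith [sq_nonneg (g (x - v) + g x)]
    have h2 : ∫ x, 2 * (g (x - v) ^ 2 + g x ^ 2) = 4 * ∫ x, g x ^ 2 := by
      rw [integral_const_mul, integral_add (hgsub v) hg,
        integral_sub_right_eq_self (fun x => g x ^ 2) v]
      ring
    linarith
  -- the main estimate
  have key : ∀ ε : ℝ, 0 < ε → ∫ x, (moll φ g ε x - g x) ^ 2 ≤ ∫ w, h (ε • w) * φ w := by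
    intro ε hε
    set F : (ι → ℝ) × (ι → ℝ) → ℝ := fun z => (g (z.1 - ε • z.2) - g z.1) ^ 2 * φ z.2 with hF
    have hFm : Measurable F := by
      apply Measurable.mul
      · apply Measurable.pow_const
        apply Measurable.sub
        · exact hgm.comp (measurable_fst.sub (measurable_snd.const_smul ε))
        · exact hgm.comp measurable_fst
      · exact hφc.measurable.comp measurable_snd
    have hF0 : ∀ z, 0 ≤ F z := fun z => mul_nonneg (sq_nonneg _) (hφ.nonneg _)
    have hFw : ∀ w, ∫ x, F (x, w) = h (ε • w) * φ w := by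
      intro w
      simp only [hF]
      rw [integral_mul_const]
    have hFi : Integrable F (volume.prod volume) := by
      rw [integrable_prod_iff' hFm.aestronglyMeasurable]
      refine ⟨Eventually.of_forall fun w => (hdiff (ε • w)).mul_const (φ w), ?_⟩
      have h1 : (fun w => ∫ x, ‖F (x, w)‖) = fun w => h (ε • w) * φ w := by
        funext w
        rw [← hFw w]
        congr 1
        funext x
        rw [Real.norm_of_nonneg (hF0 _)]
      rw [h1]
      have h2 : AEStronglyMeasurable (fun w => h (ε • w) * φ w) volume := by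
        have h3 : (fun w => h (ε • w) * φ w) = fun w => ∫ x, F (x, w) := by
          funext w; rw [hFw w]
        rw [h3]
        exact (hFm.aestronglyMeasurable (μ := volume.prod volume)).prod_swap.integral_prod_right'
      apply (hφi.const_mul (4 * ∫ x, g x ^ 2)).mono' h2
      filter_upwards with w
      rw [Real.norm_of_nonneg (mul_nonneg (hh0 _) (hφ.nonneg _))]
      exact mul_le_mul_of_nonneg_right (hhb _) (hφ.nonneg _)
    have hint : ∀ x, Integrable (fun w => g (x - ε • w) ^ 2) := by
      intro x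
      have h1 : Integrable fun z => g (x - z) ^ 2 := hg.comp_sub_left x
      exact h1.comp_smul hε.ne'
    have hint2 : ∀ x, Integrable (fun w => g (x - ε • w) ^ 2 * φ w) := by
      intro x
      exact (hint x).mul_bdd hφc.aestronglyMeasurable (Eventually.of_forall hB)
    have hmx : ∀ x, Measurable fun w => g (x - ε • w) := fun x =>
      hgm.comp ((measurable_id.const_smul ε).const_sub x)
    have hint1 : ∀ x, Integrable (fun w => g (x - ε • w) * φ w) := by
      intro x
      have h1 : Integrable fun w => (g (x - ε • w) ^ 2 * φ w + φ w) := (hint2 x).add hφi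
      have h0 : Measurable fun w => g (x - ε • w) * φ w := (hmx x).mul hφc.measurable
      apply h1.mono' h0.aestronglyMeasurable
      filter_upwards with w
      rw [norm_mul, Real.norm_of_nonneg (hφ.nonneg w), Real.norm_eq_abs]
      have h2 := hφ.nonneg w
      have h3 : |g (x - ε • w)| ≤ g (x - ε • w) ^ 2 + 1 := by
        rw [← sq_abs]
        nlinarith [sq_nonneg (|g (x - ε • w)| - 1), abs_nonneg (g (x - ε • w))]
      nlinarith
    have hpt : ∀ x, (moll φ g ε x - g x) ^ 2 ≤ ∫ w, F (x, w) := by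
      intro x
      set t : ℝ := moll φ g ε x with ht
      have h1 : 0 ≤ ∫ w, (g (x - ε • w) - t) ^ 2 * φ w :=
        integral_nonneg fun w => mul_nonneg (sq_nonneg _) (hφ.nonneg _)
      have h2 : ∀ s : ℝ, ∫ w, (g (x - ε • w) - s) ^ 2 * φ w =
          (∫ w, g (x - ε • w) ^ 2 * φ w) - 2 * s * t + s ^ 2 := by
        intro s
        have h3 : (fun w => (g (x - ε • w) - s) ^ 2 * φ w) = fun w =>
            (g (x - ε • w) ^ 2 * φ w - 2 * s * (g (x - ε • w) * φ w)) + s ^ 2 * φ w := by
          funext w; ring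
        have i1 : Integrable fun w => 2 * s * (g (x - ε • w) * φ w) := (hint1 x).const_mul _
        have i2 : Integrable fun w => g (x - ε • w) ^ 2 * φ w - 2 * s * (g (x - ε • w) * φ w) :=
          (hint2 x).sub i1
        have i3 : Integrable fun w => s ^ 2 * φ w := hφi.const_mul _
        rw [h3, integral_add i2 i3, integral_sub (hint2 x) i1, integral_const_mul,
          integral_const_mul, hφ.one, mul_one]
        rfl
      have h4 : ∫ w, F (x, w) = ∫ w, (g (x - ε • w) - g x) ^ 2 * φ w := rfl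
      rw [h4, h2 (g x)]
      rw [h2 t] at h1
      nlinarith
    have h5 : ∫ x, ∫ w, F (x, w) = ∫ w, h (ε • w) * φ w := by
      rw [← integral_prod F hFi, integral_prod_symm F hFi]
      congr 1
      funext w
      exact hFw w
    rw [← h5]
    have h6 : Integrable fun x => ∫ w, F (x, w) := hFi.integral_prod_left
    by_cases h7 : Integrable fun x => (moll φ g ε x - g x) ^ 2
    · exact integral_mono h7 h6 hpt
    · rw [integral_undef h7]
      exact integral_nonneg fun x => integral_nonneg fun w => hF0 _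
  rw [Metric.tendsto_nhds]
  intro δ hδ
  have h1 : ∀ᶠ v in 𝓝 (0 : ι → ℝ), h v < δ / 2 := htr.eventually_lt_const (by positivity)
  rw [Metric.eventually_nhds_iff] at h1
  obtain ⟨r, hr0, hr⟩ := h1
  filter_upwards [Ioo_mem_nhdsGT hr0] with ε hε
  rw [Real.dist_eq, sub_zero, abs_of_nonneg (integral_nonneg fun x => sq_nonneg _)]
  have h2 := key ε hε.1
  have h3 : ∫ w, h (ε • w) * φ w ≤ ∫ w, δ / 2 * φ w := by
    have h4 : ∀ w, h (ε • w) * φ w ≤ δ / 2 * φ w := by
      intro w
      by_cases hw : 1 < ‖w‖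
      · rw [hφ.supp w hw, mul_zero, mul_zero]
      · apply mul_le_mul_of_nonneg_right _ (hφ.nonneg w)
        apply (hr _).le
        rw [dist_zero_right, norm_smul, Real.norm_of_nonneg hε.1.le]
        push Not at hw
        calc ε * ‖w‖ ≤ ε * 1 := mul_le_mul_of_nonneg_left hw hε.1.le
          _ = ε := mul_one ε
          _ < r := hε.2
    by_cases h7 : Integrable fun w => h (ε • w) * φ w
    · exact integral_mono h7 (hφi.const_mul _) h4
    · rw [integral_undef h7]
      exact integral_nonneg fun w => mul_nonneg (by positivity) (hφ.nonneg w)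
  rw [integral_const_mul, hφ.one, mul_one] at h3
  linarith

theorem mo_st (hTr : TrStatement) : MoStatement := by
  intro ι _ _ φ g hφ hg
  refine ⟨fun ε hε => mo1 hφ hg hε, ?_⟩
  set g' := hg.meas.mk g with hg'
  have hgm : Measurable g' := hg.meas.stronglyMeasurable_mk.measurable
  have hae : g =ᵐ[volume] g' := hg.meas.ae_eq_mk
  have hsq : Integrable fun x => g' x ^ 2 := by
    apply hg.sq.congr
    filter_upwards [hae] with x hx
    rw [hx]
  have h1 := mo2 hTr hφ hgm hsq
  apply h1.congr'
  filter_upwards [self_mem_nhdsWithin] with ε hε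
  have hε0 : (0 : ℝ) < ε := hε
  apply integral_congr_ae
  filter_upwards [hae] with x hx
  have h2 : moll φ g' ε x = moll φ g ε x := by
    unfold moll
    rw [moll_sub g' φ hε0 x, moll_sub g φ hε0 x]
    congr 1
    apply integral_congr_ae
    filter_upwards [hae] with t ht
    rw [ht]
  rw [h2, hx]

end Pool.Agent.Lib.MP_fa837f_gt.P2.H24
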