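import Pool.Agent.Lib.MP_fa837f_gt.P2.Iface

/-!
Project P2, row DI (helper24).
-/

set_option autoImplicit false

open MeasureTheory Matrix Set Filter Topology

namespace Pool.Agent.Lib.MP_fa837f_gt.P2.H24

variable {n k : ℕ}

/-- The smooth step: one for `x ≤ 1`, zero for `x ≥ 2`. -/
noncomputable def th (x : ℝ) : ℝ := Real.smoothTransition (2 - x)

theorem th_smooth : ContDiff ℝ (⊤ : ℕ∞) th :=
  Real.smoothTransition.contDiff.comp (contDiff_const.sub contDiff_id)

theorem th_one {x : ℝ} (hx : x ≤ 1) : th x = 1 :=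
  Real.smoothTransition.one_of_one_le (by linarith)

theorem th_zero {x : ℝ} (hx : 2 ≤ x) : th x = 0 :=
  Real.smoothTransition.zero_of_nonpos (by linarith)

theorem th_deriv : ∃ C : ℝ, 0 < C ∧ (∀ x, |deriv th x| ≤ C) ∧ ∀ x, 2 < x → deriv th x = 0 := by
  have hz : ∀ x, 2 < x → deriv th x = 0 := by
    intro x hx
    have h1 : th =ᶠ[𝓝 x] fun _ => (0 : ℝ) := by
      filter_upwards [lt_mem_nhds hx] with y hy
      exact th_zero (le_of_lt hy)
    rw [h1.deriv_eq, deriv_const]
  have hz' : ∀ x, x < 1 → deriv th x = 0 := by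
    intro x hx
    have h1 : th =ᶠ[𝓝 x] fun _ => (1 : ℝ) := by
      filter_upwards [gt_mem_nhds hx] with y hy
      exact th_one (le_of_lt hy)
    rw [h1.deriv_eq, deriv_const]
  have hc : Continuous (deriv th) := th_smooth.continuous_deriv (by norm_cast)
  obtain ⟨C, hC⟩ := (isCompact_Icc (a := (1 : ℝ)) (b := 2)).exists_bound_of_continuousOn
    hc.continuousOn
  refine ⟨max C 1, lt_max_of_lt_right one_pos, ?_, hz⟩
  intro x
  rcases lt_or_ge x 1 with h1 | h1
  · rw [hz' x h1, abs_zero]; exact le_trans zero_le_one (le_max_right _ _)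
  · rcases le_or_gt x 2 with h2 | h2
    · exact (hC x ⟨h1, h2⟩).trans (le_max_left _ _)
    · rw [hz x h2, abs_zero]; exact le_trans zero_le_one (le_max_right _ _)

/-- `A ∇κ = 2 y`. -/
theorem A_grad (hWa : WaStatement) (hSl : SlStatement) (S : Sys n k) (y : Pt k)
    (p : Fin k × Fin 3) : ∑ q, S.A y p q * pd q S.kap y = 2 * y p := by
  have hL := hSl n k S
  have hB := hWa n k S.m (S.r y) S.hm (hL.rpos y)
  have hYs : ∀ (q : Fin k × Fin 3) (i : Fin n) (c : Fin 3),
      Yv S.m (Pi.single q 1) i c = if c = q.2 then S.m i q.1 else 0 := by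
    intro q i c
    unfold Yv
    by_cases hc : c = q.2
    · rw [if_pos hc]
      rw [Finset.sum_eq_single q.1]
      · rw [hc]; simp
      · intro a _ ha
        rw [Pi.single_eq_of_ne, mul_zero]
        intro h; exact ha (congrArg Prod.fst h)
      · intro h; exact absurd (Finset.mem_univ _) h
    · rw [if_neg hc]
      apply Finset.sum_eq_zero
      intro a _
      rw [Pi.single_eq_of_ne, mul_zero]
      intro h; exact hc (congrArg Prod.snd h)
  have hpd : ∀ q : Fin k × Fin 3, pd q S.kap y = 2 * ∑ i, S.r y i * (Yv S.m y i q.2 * S.m i q.1) := by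
    intro q
    unfold pd
    rw [hL.dkap]
    congr 1
    apply Finset.sum_congr rfl
    intro i _
    congr 1
    rw [Finset.sum_eq_single q.2]
    · rw [hYs, if_pos rfl]
    · intro c _ hc
      rw [hYs, if_neg hc, mul_zero]
    · intro h; exact absurd (Finset.mem_univ _) h
  rw [Fintype.sum_prod_type]
  have h1 : ∀ b : Fin k, ∑ c : Fin 3, S.A y p (b, c) * pd (b, c) S.kap y =
      (RR S.m (S.r y))⁻¹ p.1 b * (2 * ∑ i, S.r y i * (Yv S.m y i p.2 * S.m i b)) := by
    intro b
    rw [Finset.sum_eq_single p.2]
    · rw [hpd]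
      unfold Sys.A
      rw [if_pos rfl]
    · intro c _ hc
      unfold Sys.A
      rw [if_neg (fun h => hc h.symm), zero_mul]
    · intro h; exact absurd (Finset.mem_univ _) h
  rw [Finset.sum_congr rfl (fun b _ => h1 b)]
  have h2 : ∀ i, bb S.m (S.r y) i p.1 = ∑ b, (RR S.m (S.r y))⁻¹ p.1 b * S.m i b := fun i => rfl
  have h3 : ∑ b, (RR S.m (S.r y))⁻¹ p.1 b * (2 * ∑ i, S.r y i * (Yv S.m y i p.2 * S.m i b)) =
      2 * ∑ i, S.r y i * bb S.m (S.r y) i p.1 * Yv S.m y i p.2 := by
    simp only [h2, Finset.mul_sum, Finset.sum_mul]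
    rw [Finset.sum_comm]
    apply Finset.sum_congr rfl
    intro i _
    apply Finset.sum_congr rfl
    intro b _
    ring
  rw [h3]
  congr 1
  have h4 : ∑ i, S.r y i * bb S.m (S.r y) i p.1 * Yv S.m y i p.2 =
      ∑ b, (∑ i, S.r y i * bb S.m (S.r y) i p.1 * S.m i b) * y (b, p.2) := by
    unfold Yv
    simp only [Finset.mul_sum, Finset.sum_mul]
    rw [Finset.sum_comm]
    apply Finset.sum_congr rfl
    intro b _
    apply Finset.sum_congr rfl
    intro i _
    ring
  rw [h4]
  have h5 : ∀ b, (∑ i, S.r y i * bb S.m (S.r y) i p.1 * S.m i b) = if p.1 = b then 1 else 0 :=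
    fun b => hB.res p.1 b
  simp only [h5]
  rw [Finset.sum_eq_single p.1]
  · simp
  · intro b _ hb
    rw [if_neg (fun h => hb h.symm), zero_mul]
  · intro h; exact absurd (Finset.mem_univ _) h

theorem gam_kap (hWa : WaStatement) (hSl : SlStatement) (S : Sys n k) (y : Pt k) :
    Gam S.A S.kap S.kap y ≤ 5 * S.kap y := by
  have hL := hSl n k S
  have h1 : Gam S.A S.kap S.kap y = ∑ p, (2 * y p) * pd p S.kap y := by
    unfold Gam
    apply Finset.sum_congr rfl
    intro p _
    rw [← A_grad hWa hSl S y p, Finset.sum_mul]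
    apply Finset.sum_congr rfl
    intro q _
    ring
  have h2 : ∑ p, (2 * y p) * pd p S.kap y = 2 * fderiv ℝ S.kap y y := by
    have h3 : fderiv ℝ S.kap y y = ∑ p, y p * pd p S.kap y := by
      conv_lhs => rw [show y = ∑ p, y p • (Pi.single p 1 : Pt k) from by
        ext q
        rw [Finset.sum_apply]
        rw [Finset.sum_eq_single q]
        · simp
        · intro p _ hp
          rw [Pi.smul_apply, Pi.single_eq_of_ne (Ne.symm hp), smul_zero]
        · intro h; exact absurd (Finset.mem_univ _) h]
      rw [map_sum]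
      apply Finset.sum_congr rfl
      intro p _
      rw [map_smul, smul_eq_mul]
      congr 1
      have : (∑ p, y p • (Pi.single p 1 : Pt k)) = y := by
        ext q
        rw [Finset.sum_apply]
        rw [Finset.sum_eq_single q]
        · simp
        · intro p _ hp
          rw [Pi.smul_apply, Pi.single_eq_of_ne (Ne.symm hp), smul_zero]
        · intro h; exact absurd (Finset.mem_univ _) h
      rw [this]
      rfl
    rw [h3, Finset.mul_sum]
    apply Finset.sum_congr rfl
    intro p _
    ring
  rw [h1, h2, hL.dkap]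
  have h4 : ∑ i, S.r y i * ∑ c, Yv S.m y i c * Yv S.m y i c = ∑ i, S.r y i * Gm S.m y i i := rfl
  rw [h4]
  have h5 := hL.rkap y
  have h6 := hL.kap0 y
  have h7 := S.hδ1
  nlinarith

theorem di_st (hWa : WaStatement) (hSl : SlStatement) (hSr : SrStatement) (hIn : InStatement) :
    DiStatement := by
  intro n k S
  have hL := hSl n k S
  have hR := hSr n k S 0
  have hB : ∀ y, BFacts S.m (S.r y) := fun y => hWa n k S.m (S.r y) S.hm (hL.rpos y)
  refine ⟨hR.srho, hR.rhopos, ?_, ?_, ?_, ?_, ?_⟩
  · have h1 := hIn n k S (fun _ => 1) continuous_const ⟨1, 0, fun y => by simp⟩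
    simpa using h1
  · intro p q
    unfold Sys.A
    by_cases h : p.2 = q.2
    · simp only [if_pos h]; exact hR.sinv p.1 q.1
    · simp only [if_neg h]; exact contDiff_const
  · intro y p q
    unfold Sys.A
    have h1 : ((RR S.m (S.r y))⁻¹)ᵀ = (RR S.m (S.r y))⁻¹ := by
      have h2 := (hB y).posdef.inv.isHermitian
      rw [Matrix.IsHermitian, Matrix.conjTranspose_eq_transpose_of_trivial] at h2
      exact h2
    by_cases h : p.2 = q.2
    · rw [if_pos h, if_pos h.symm]
      conv_lhs => rw [← h1]
      rfl
    · rw [if_neg h, if_neg (fun h' => h h'.symm)]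
  · intro y v hv
    -- the sum over the columns
    have h1 : ∑ p, ∑ q, S.A y p q * v p * v q =
        ∑ c : Fin 3, ∑ i, S.r y i * (∑ a, bb S.m (S.r y) i a * v (a, c)) ^ 2 := by
      rw [Fintype.sum_prod_type, Finset.sum_comm]
      apply Finset.sum_congr rfl
      intro c _
      have h2 : ∀ a : Fin k, ∑ q, S.A y (a, c) q * v (a, c) * v q =
          ∑ b, (RR S.m (S.r y))⁻¹ a b * v (a, c) * v (b, c) := by
        intro a
        rw [Fintype.sum_prod_type]
        apply Finset.sum_congr rfl
        intro b _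
        rw [Finset.sum_eq_single c]
        · unfold Sys.A
          rw [if_pos rfl]
        · intro d _ hd
          unfold Sys.A
          rw [if_neg (fun h => hd h.symm), zero_mul, zero_mul]
        · intro h; exact absurd (Finset.mem_univ _) h
      rw [Finset.sum_congr rfl (fun a _ => h2 a)]
      simp only [(hB y).inv, pow_two, Finset.sum_mul, Finset.mul_sum]
      rw [Finset.sum_congr rfl (fun a _ => Finset.sum_comm), Finset.sum_comm]
      apply Finset.sum_congr rfl
      intro i _
      rw [Finset.sum_comm]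
      apply Finset.sum_congr rfl
      intro b _
      apply Finset.sum_congr rfl
      intro a _
      ring
    rw [h1]
    have h3 : ∀ c : Fin 3, ∀ i, 0 ≤ S.r y i * (∑ a, bb S.m (S.r y) i a * v (a, c)) ^ 2 :=
      fun c i => mul_nonneg (hL.rpos y i).le (sq_nonneg _)
    by_contra hcon
    push Not at hcon
    have h4 : ∑ c : Fin 3, ∑ i, S.r y i * (∑ a, bb S.m (S.r y) i a * v (a, c)) ^ 2 = 0 :=
      le_antisymm hcon (Finset.sum_nonneg fun c _ => Finset.sum_nonneg fun i _ => h3 c i)
    rw [Finset.sum_eq_zero_iff_of_nonneg (fun c _ => Finset.sum_nonneg fun i _ => h3 c i)] at h4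
    apply hv
    ext ⟨b, c⟩
    have h5 := h4 c (Finset.mem_univ _)
    rw [Finset.sum_eq_zero_iff_of_nonneg (fun i _ => h3 c i)] at h5
    have h6 : ∀ i, ∑ a, bb S.m (S.r y) i a * v (a, c) = 0 := by
      intro i
      have h7 := h5 i (Finset.mem_univ _)
      rcases mul_eq_zero.mp h7 with h8 | h8
      · exact absurd h8 (hL.rpos y i).ne'
      · exact pow_eq_zero_iff (two_ne_zero) |>.mp h8
    have h8 : v (b, c) = ∑ a, (if a = b then 1 else 0) * v (a, c) := by
      rw [Finset.sum_eq_single b]
      · simp
      · intro a _ ha; rw [if_neg ha, zero_mul]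
      · intro h; exact absurd (Finset.mem_univ _) h
    have h9 : ∑ a, (if a = b then 1 else 0) * v (a, c) =
        ∑ i, S.r y i * S.m i b * ∑ a, bb S.m (S.r y) i a * v (a, c) := by
      have h10 : ∀ a : Fin k, (if a = b then (1 : ℝ) else 0) =
          ∑ i, S.r y i * bb S.m (S.r y) i a * S.m i b := fun a => ((hB y).res a b).symm
      simp only [h10, Finset.sum_mul, Finset.mul_sum]
      rw [Finset.sum_comm]
      apply Finset.sum_congr rfl
      intro i _
      apply Finset.sum_congr rfl
      intro a _
      ring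
    rw [Pi.zero_apply, h8, h9]
    apply Finset.sum_eq_zero
    intro i _
    rw [h6 i, mul_zero]
  · intro ε hε T
    obtain ⟨C, hC0, hC, hCz⟩ := th_deriv
    obtain ⟨K, hK⟩ := (isCompact_closedBall (0 : Pt k) T).exists_bound_of_continuousOn
      hL.skap.continuous.continuousOn
    obtain ⟨a, ha0, ha⟩ := hL.coer
    set N : ℝ := max 1 (max K (10 * C ^ 2 / ε)) with hN
    have hN1 : 1 ≤ N := le_max_left _ _
    have hNK : K ≤ N := (le_max_left _ _).trans (le_max_right _ _)
    have hNC : 10 * C ^ 2 / ε ≤ N := (le_max_right _ _).trans (le_max_right _ _)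
    have hN0 : 0 < N := by linarith
    have hsm : ContDiff ℝ (⊤ : ℕ∞) fun y : Pt k => th (S.kap y / N) :=
      th_smooth.comp (hL.skap.div_const N)
    refine ⟨fun y => th (S.kap y / N), ⟨hsm, ?_⟩, ?_, ?_, ?_⟩
    · apply HasCompactSupport.intro (isCompact_closedBall (0 : Pt k) (Real.sqrt (2 * N / a)))
      intro y hy
      rw [mem_closedBall_zero_iff, not_le] at hy
      apply th_zero
      have h1 : 2 * N / a < ‖y‖ ^ 2 := by
        have h2 := Real.sq_sqrt (show 0 ≤ 2 * N / a by positivity)
        rw [← h2]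
        exact pow_lt_pow_left₀ hy (Real.sqrt_nonneg _) two_ne_zero
      rw [div_lt_iff₀ ha0] at h1
      rw [le_div_iff₀ hN0]
      have h3 := ha y
      linarith
    · intro y
      exact ⟨Real.smoothTransition.nonneg _, Real.smoothTransition.le_one _⟩
    · intro y hy
      apply th_one
      rw [div_le_one hN0]
      have h1 := hK y (mem_closedBall_zero_iff.mpr hy)
      exact (le_abs_self _).trans (h1.trans hNK)
    · intro y
      have hpd : ∀ p : Fin k × Fin 3, pd p (fun y => th (S.kap y / N)) y =
          deriv th (S.kap y / N) / N * pd p S.kap y := by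
        intro p
        unfold pd
        have h1 : HasFDerivAt (fun y => S.kap y / N) ((N⁻¹ : ℝ) • fderiv ℝ S.kap y) y := by
          have h2 : HasFDerivAt S.kap (fderiv ℝ S.kap y) y :=
            (hL.skap.differentiable (by simp) y).hasFDerivAt
          have h3 := h2.const_mul (N⁻¹)
          have h4 : (fun y => S.kap y / N) = fun y => N⁻¹ * S.kap y := by
            funext z; rw [div_eq_inv_mul]
          rw [h4]
          exact h3
        have h5 : HasDerivAt th (deriv th (S.kap y / N)) (S.kap y / N) :=
          (th_smooth.differentiable (by simp) _).hasDerivAt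
        have h6 := h5.comp_hasFDerivAt y h1
        have h7 : (fun y => th (S.kap y / N)) = th ∘ fun y => S.kap y / N := rfl
        rw [h7, h6.fderiv]
        simp only [_root_.smul_apply, smul_eq_mul]
        ring
      have hG : Gam S.A (fun y => th (S.kap y / N)) (fun y => th (S.kap y / N)) y =
          (deriv th (S.kap y / N) / N) ^ 2 * Gam S.A S.kap S.kap y := by
        unfold Gam
        simp only [hpd, Finset.mul_sum]
        apply Finset.sum_congr rfl
        intro p _
        apply Finset.sum_congr rfl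
        intro q _
        ring
      rw [hG]
      rcases le_or_gt (S.kap y / N) 2 with h2 | h2
      · have h3 : S.kap y ≤ 2 * N := by rwa [div_le_iff₀ hN0] at h2
        have h4 : Gam S.A S.kap S.kap y ≤ 10 * N := by
          have := gam_kap hWa hSl S y
          linarith
        have h5 : (deriv th (S.kap y / N) / N) ^ 2 ≤ C ^ 2 / N ^ 2 := by
          rw [div_pow]
          apply div_le_div_of_nonneg_right _ (by positivity)
          rw [← sq_abs]
          exact pow_le_pow_left₀ (abs_nonneg _) (hC _) 2
        calc (deriv th (S.kap y / N) / N) ^ 2 * Gam S.A S.kap S.kap y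
            ≤ (deriv th (S.kap y / N) / N) ^ 2 * (10 * N) :=
              mul_le_mul_of_nonneg_left h4 (sq_nonneg _)
          _ ≤ C ^ 2 / N ^ 2 * (10 * N) := mul_le_mul_of_nonneg_right h5 (by positivity)
          _ = 10 * C ^ 2 / N := by field_simp
          _ ≤ ε := by
            rw [div_le_iff₀ hN0]
            rw [div_le_iff₀ hε] at hNC
            linarith
      · rw [hCz _ h2, zero_div]
        simp only [ne_eq, OfNat.ofNat_ne_zero, not_false_eq_true, zero_pow, zero_mul]
        exact hε.le

end Pool.Agent.Lib.MP_fa837f_gt.P2.H24
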